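import Pool.Agent.TH872.Sq.W24

set_option autoImplicit false

namespace Pool.Agent.Results.MP_73b532_nt.DigitRestrictedTranslates
open Finset
open Pool.Agent.TH872.Sq (qv dg dg_zero ld fx th SD SgD2 nu2 loc2 main_vm2 main_pos2 th_le card_pair mem_SD)

/-- the integers below `b ^ k` whose `i`-th digit in base `b` belongs to `D i` for all `i < k` -/
def S (b : ℕ) (D : ℕ → Finset ℕ) (k : ℕ) : Finset ℕ := (range (b ^ k)).filter (fun n : ℕ => ∀ i < k, n / b ^ i % b ∈ D i)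

/-- the primes up to `z` -/
def primes (z : ℕ) : Finset ℕ := (Icc 1 z).filter Nat.Prime

/-- the partitions `h + m = (n + h) + (m - n)` into two primes with `n` in `S` -/
def Gold (b : ℕ) (D : ℕ → Finset ℕ) (k h m : ℕ) : Finset ℕ := (S b D k).filter (fun n : ℕ => (n + h).Prime ∧ (m - n).Prime)

/-- their weighted number -/
noncomputable def R (b : ℕ) (D : ℕ → Finset ℕ) (k h m : ℕ) : ℝ :=
  ∑ n ∈ Gold b D k h m, Real.log ((n + h : ℕ) : ℝ) * Real.log ((m - n : ℕ) : ℝ)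

/-- the number of the `n` in `S` such that no prime `p ≤ b` divides `(n + h) (m - n)` -/
def loc (b : ℕ) (D : ℕ → Finset ℕ) (k h m : ℕ) : ℕ :=
  ((S b D k).filter (fun n : ℕ => ∀ p ∈ primes b, ¬ ((p : ℤ) ∣ (n : ℤ) + h ∨ (p : ℤ) ∣ (m : ℤ) - n))).card

/-- the predicted average -/
noncomputable def sigma (b : ℕ) (D : ℕ → Finset ℕ) (k h m z : ℕ) : ℝ :=
  (∏ p ∈ primes z, (1 - 1 / (p : ℝ)))⁻¹ ^ 2 * ((loc b D k h m : ℝ) / (S b D k).card) *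
    ∏ p ∈ (primes z).filter (fun p => b < p), (1 - (if p ∣ h + m then (1 : ℝ) else 2) / p)

lemma qv_eq (n h : ℕ) : qv 0 1 n + 1 * (h : ℤ) = ((n + h : ℕ) : ℤ) := by
  unfold qv; push_cast; ring

lemma qv_eq' (n m : ℕ) : qv 0 (-1) n + 1 * (m : ℤ) = (m : ℤ) - n := by
  unfold qv; ring

lemma nu_eq (h m p : ℕ) (hp : p.Prime) : nu2 0 1 0 (-1) (1 * (h : ℤ)) (1 * (m : ℤ)) p = if p ∣ h + m then 1 else 2 := by
  have h1 := card_pair p hp.pos (-(h : ℤ)) (m : ℤ)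
  have h2 : ((p : ℤ) ∣ -(h : ℤ) - m) ↔ p ∣ h + m := by
    rw [← dvd_neg, neg_sub, sub_neg_eq_add, add_comm]
    exact_mod_cast Iff.rfl
  simp only [h2] at h1
  rw [← h1]
  unfold nu2
  congr 1
  apply filter_congr
  intro a _
  apply or_congr
  · rw [show (0 : ℤ) * (a : ℤ) ^ 2 + 1 * a + 1 * (h : ℤ) = (a : ℤ) - -(h : ℤ) by ring]
  · rw [show (0 : ℤ) * (a : ℤ) ^ 2 + -1 * a + 1 * (m : ℤ) = -((a : ℤ) - m) by ring, dvd_neg]

lemma loc_eq (b : ℕ) (D : ℕ → Finset ℕ) (k h m : ℕ) : loc2 b D k 0 1 0 (-1) (1 * (h : ℤ)) (1 * (m : ℤ)) = loc b D k h m := by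
  unfold loc2 loc
  congr 1
  apply filter_congr
  intro n _
  apply forall₂_congr
  intro p _
  apply not_congr
  apply or_congr
  · rw [show (0 : ℤ) * (n : ℤ) ^ 2 + 1 * n + 1 * (h : ℤ) = (n : ℤ) + h by ring]
  · rw [show (0 : ℤ) * (n : ℤ) ^ 2 + -1 * n + 1 * (m : ℤ) = (m : ℤ) - n by ring]

lemma sig_eq (b : ℕ) (D : ℕ → Finset ℕ) (k h m z : ℕ) : SgD2 b D k 0 1 0 (-1) (1 * (h : ℤ)) (1 * (m : ℤ)) z = sigma b D k h m z := by
  unfold SgD2 sigma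
  rw [loc_eq]
  have h1 : ∏ p ∈ (Pool.Agent.H373R2.T7.pz z).filter (fun p => b < p), (1 - (nu2 0 1 0 (-1) (1 * (h : ℤ)) (1 * (m : ℤ)) p : ℝ) / p) =
      ∏ p ∈ (primes z).filter (fun p => b < p), (1 - (if p ∣ h + m then (1 : ℝ) else 2) / p) := by
    apply prod_congr rfl
    intro p hp
    rw [mem_filter, Pool.Agent.H373R2.T7.mem_pz] at hp
    rw [nu_eq h m p hp.1.2]
    split_ifs <;> norm_num
  rw [h1]
  rfl

lemma pos_m (b k n m : ℕ) (hn : n < b ^ k) (hm : b ^ k ≤ m) : ((m : ℤ) - n).toNat = m - n ∧ (1 : ℤ) ≤ (m : ℤ) - n := by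
  omega

lemma R_eq (b : ℕ) (D : ℕ → Finset ℕ) (k h m : ℕ) (hh : 1 ≤ h) (hm : b ^ k ≤ m) :
    ∑ n ∈ SD b D k, (fx th (qv 0 1 n + 1 * (h : ℤ)) * fx th (qv 0 (-1) n + 1 * (m : ℤ))) = R b D k h m := by
  unfold R Gold
  rw [sum_filter]
  apply sum_congr rfl
  intro n hn
  obtain ⟨h1, h2⟩ := pos_m b k n m (mem_SD hn) hm
  rw [qv_eq, qv_eq']
  unfold fx th
  rw [if_pos (by exact_mod_cast (by omega : 1 ≤ n + h)), if_pos h2, h1, Int.toNat_natCast]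
  by_cases h3 : (n + h).Prime
  · by_cases h4 : (m - n).Prime
    · rw [if_pos h3, if_pos h4, if_pos ⟨h3, h4⟩]
    · rw [if_neg h4, mul_zero, if_neg (fun h => h4 h.2)]
  · rw [if_neg h3, zero_mul, if_neg (fun h => h3 h.1)]

/-- **Goldbach partitions with one prime in a translate of a set of integers with restricted digits.** -/
theorem result (b : ℕ) (hb : 2 ≤ b) (F C U : ℕ) : ∃ B : ℕ, ∀ E : ℕ, ∃ K₀ : ℕ, ∀ k : ℕ, K₀ ≤ k → ∀ z : ℕ,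
    (k : ℝ) ^ B ≤ z → (z : ℝ) ≤ (k : ℝ) ^ E → ∀ D : ℕ → Finset ℕ, (∀ i < k, D i ⊆ range b ∧ 2 ≤ (D i).card) →
    ∀ X : ℕ, b ^ k ≤ X → X ≤ F * b ^ k →
    (((Icc 1 X ×ˢ Icc 1 X).filter (fun c : ℕ × ℕ => b ^ k ≤ c.2 ∧
      1 / (k : ℝ) ^ U < |R b D k c.1 c.2 / (S b D k).card - sigma b D k c.1 c.2 z|)).card : ℝ) ≤ ((X : ℝ) * X) / (k : ℝ) ^ U ∧
    (((Icc 1 X ×ˢ Icc 1 X).filter (fun c : ℕ × ℕ => b ^ k ≤ c.2 ∧ ((S b D k).card : ℝ) / (k : ℝ) ^ C ≤ (loc b D k c.1 c.2 : ℝ) ∧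
      ((Gold b D k c.1 c.2).card : ℝ) < ((S b D k).card : ℝ) / (k : ℝ) ^ (C + 22))).card : ℝ) ≤ ((X : ℝ) * X) / (k : ℝ) ^ U := by
  classical
  have hld : ld 0 1 ≠ 0 := by decide
  have hld' : ld 0 (-1) ≠ 0 := by decide
  obtain ⟨B, h1⟩ := main_vm2 b hb 0 1 0 (-1) hld hld' th th (fun n => ⟨le_rfl, th_le n⟩) (fun n => ⟨le_rfl, th_le n⟩) F U
  obtain ⟨K2, h2⟩ := main_pos2 b hb 0 1 0 (-1) hld hld' F C U
  refine ⟨B, fun E => ?_⟩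
  obtain ⟨K1, h1⟩ := h1 E
  refine ⟨K1 + K2, fun k hk z hz1 hz2 D hD X hX1 hX2 => ?_⟩
  have hX1' : b ^ (dg 0 * k) ≤ X := by rw [dg_zero, one_mul]; exact hX1
  have hX2' : X ≤ F * b ^ (dg 0 * k) := by rw [dg_zero, one_mul]; exact hX2
  have hpos : ∀ h m : ℕ, 1 ≤ h → b ^ k ≤ m → ∀ n < b ^ k, 1 ≤ qv 0 1 n + 1 * (h : ℤ) ∧ 1 ≤ qv 0 (-1) n + 1 * (m : ℤ) := by
    intro h m hh hm n hn
    rw [qv_eq, qv_eq']
    exact ⟨by exact_mod_cast (by omega : 1 ≤ n + h), (pos_m b k n m hn hm).2⟩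
  constructor
  · apply h1 k (by omega) z hz1 hz2 D hD 1 1 (Or.inl rfl) (Or.inl rfl) X X hX1' hX2' hX1' hX2'
    intro c hc hQ
    rw [mem_product, mem_Icc, mem_Icc] at hc
    refine ⟨hpos c.1 c.2 hc.1.1 hQ.1, ?_⟩
    rw [sig_eq, R_eq b D k c.1 c.2 hc.1.1 hQ.1, one_div_mul_eq_div]
    exact hQ.2
  · apply h2 k (by omega) D hD 1 1 (Or.inl rfl) (Or.inl rfl) X X hX1' hX2' hX1' hX2'
    intro c hc hQ
    rw [mem_product, mem_Icc, mem_Icc] at hc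
    refine ⟨hpos c.1 c.2 hc.1.1 hQ.1, ?_, ?_, ?_⟩
    · intro p hp hbp
      rw [nu_eq c.1 c.2 p hp]
      split_ifs <;> omega
    · rw [loc_eq]
      exact hQ.2.1
    · refine lt_of_le_of_lt (le_of_eq ?_) hQ.2.2
      unfold Gold
      congr 2
      apply filter_congr
      intro n hn
      rw [qv_eq, qv_eq', (pos_m b k n c.2 (mem_SD hn) hQ.1).1, Int.toNat_natCast]

end Pool.Agent.Results.MP_73b532_nt.DigitRestrictedTranslates
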