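import Pool.Agent.TH894.GK1

/-!
# The number of primes `p` with `√n < p ≤ n / 2` and `n - p` prime for almost all even members `n` of the
Hamming spheres around an arbitrary large integer

Definitions used from `Pool.Agent.H560R3.GB`: `C₂`: the twin prime constant
`∏_{p > 2} (1 - 1 / (p - 1) ^ 2)`; `sing n`: the singular series `2 C₂ ∏_{p ∣ n, p > 2} (p - 1) / (p - 2)`;
`HL n = sing n * n / log ^ 2 n`: the prediction of Hardy and Littlewood for the number of ordered
representations of `n` as a sum of two primes.
-/

set_option autoImplicit false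

namespace Pool.Agent.Results.MP_73b532_nt.HammingSpheres

open Finset Pool.Agent.H560R3.GB

/-- The number of primes `p` with `√n < p ≤ n / 2` such that `n - p` is prime. -/
def G (n : ℕ) : ℕ := ((Ioc (Nat.sqrt n) (n / 2)).filter (fun p => p.Prime ∧ (n - p).Prime)).card

/-- (1) the number of primes `p` with `√n < p ≤ n / 2` such that `n - p` is prime agrees with half of the
prediction of Hardy and Littlewood up to a relative error of at most `ε`; (2) there is such a prime. -/
def Holds (ε : ℝ) (n : ℕ) : Prop :=
  |(G n : ℝ) - HL n / 2| ≤ ε * (HL n / 2) ∧ ∃ p : ℕ, p.Prime ∧ (n - p).Prime ∧ n < p ^ 2 ∧ 2 * p ≤ n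

/-- The digit number `i` (counted from the right, beginning with `0`) of `n` in base `b`. -/
def digit (b i n : ℕ) : ℕ := n / b ^ i % b

/-- The number of digits of `n ≥ 1` in base `b`. -/
def len (b n : ℕ) : ℕ := Nat.log b n + 1

open Classical in
/-- The numbers `n` (with at most as many digits as `N`) whose digits in base `b` differ from the digits of
`N` at exactly `r` positions, where the first and the last digit are the same as those of `N` and every
digit which differs from the digit of `N` belongs to the set `F i` of the admissible new digits at its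
position `i`. (If all digits are admissible, then this is the Hamming sphere of radius `r` around `N` in
the set of the numbers which have the same first and last digit as `N`.) -/
noncomputable def sphere (b N : ℕ) (F : ℕ → Finset ℕ) (r : ℕ) : Finset ℕ :=
  (range (b ^ len b N)).filter (fun n =>
    (∀ i ∈ range (len b N), digit b i n ≠ digit b i N → i ∈ Ico 1 (len b N - 1) ∧ digit b i n ∈ F i) ∧
    ((range (len b N)).filter (fun i => digit b i n ≠ digit b i N)).card = r)

open Classical in
/-- The number of the even members of the sphere which do not satisfy `Holds ε`. -/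
noncomputable def exceptions (ε : ℝ) (b N : ℕ) (F : ℕ → Finset ℕ) (r : ℕ) : ℕ :=
  ((sphere b N F r).filter (fun n => Even n ∧ ¬ Holds ε n)).card

lemma holds_of (ε : ℝ) (hε : 0 < ε) : ∃ (η : ℝ) (n₀ : ℕ), 0 < η ∧ ∀ n : ℕ, n₀ ≤ n → Even n →
    Pool.Agent.TH894.SM.Good η n → Holds ε n := by
  obtain ⟨η, n₀, hη, h⟩ := Pool.Agent.TH894.GK.window ε hε
  exact ⟨η, n₀, hη, fun n hn hev hG => h n hn hev hG.1⟩

lemma conv (b : ℕ) (hb : 2 ≤ b) : ∃ N₀ : ℕ, ∀ N : ℕ, N₀ ≤ N → (len b N : ℝ) / Real.log (len b N) ≤
    4 / Real.log b * (Real.log N / Real.log (Real.log N)) := by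
  have hlb : 0 < Real.log b := Real.log_pos (by exact_mod_cast (by omega : 1 < b))
  obtain ⟨N₁, h1⟩ := Pool.Agent.H373R2.T7.ev_L' (Real.log b ^ 2 + Real.log b + 3)
  refine ⟨N₁ + b, fun N hN => ?_⟩
  have hL := h1 N (by omega)
  obtain ⟨L, hLd⟩ : ∃ L, L = Real.log N := ⟨_, rfl⟩
  rw [← hLd] at hL ⊢
  have hL3 : 3 ≤ L := by nlinarith [sq_nonneg (Real.log b)]
  have hL0 : 0 < L := by linarith
  have hN0 : N ≠ 0 := by omega
  have hNr : (0 : ℝ) < N := by exact_mod_cast Nat.pos_of_ne_zero hN0
  have hbr : (0 : ℝ) < b := by exact_mod_cast (by omega : 0 < b)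
  have k1 : ((Nat.log b N : ℕ) : ℝ) * Real.log b ≤ L := by
    have h2 : b ^ Nat.log b N ≤ N := Nat.pow_log_le_self b hN0
    have h3 : Real.log ((b : ℝ) ^ Nat.log b N) ≤ Real.log N := by
      apply Real.log_le_log (by positivity)
      exact_mod_cast h2
    rw [Real.log_pow] at h3
    rw [hLd]
    exact h3
  have k2 : L ≤ (len b N : ℝ) * Real.log b := by
    have h2 : N < b ^ (Nat.log b N + 1) := Nat.lt_pow_succ_log_self (by omega) N
    have h3 : Real.log N ≤ Real.log ((b : ℝ) ^ (Nat.log b N + 1)) := by
      apply Real.log_le_log hNr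
      exact_mod_cast h2.le
    rw [Real.log_pow] at h3
    rw [hLd]
    unfold len
    exact h3
  have k3 : (len b N : ℝ) * Real.log b ≤ 2 * L := by
    have h2 : (len b N : ℝ) = (Nat.log b N : ℕ) + 1 := by unfold len; push_cast; ring
    rw [h2]
    nlinarith [sq_nonneg (Real.log b)]
  have hlen0 : (0 : ℝ) < len b N := by
    by_contra hcon
    push_neg at hcon
    nlinarith
  -- the logarithm of the number of digits
  have k4 : √L ≤ len b N := by
    have h2 : Real.log b ≤ √L := by
      apply Real.le_sqrt_of_sq_le
      linarith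
    have h3 : √L * √L = L := Real.mul_self_sqrt hL0.le
    have h4 : √L * Real.log b ≤ (len b N : ℝ) * Real.log b := by
      calc √L * Real.log b ≤ √L * √L := mul_le_mul_of_nonneg_left h2 (Real.sqrt_nonneg _)
        _ = L := h3
        _ ≤ _ := k2
    exact le_of_mul_le_mul_right h4 hlb
  have hsq1 : 0 < √L := Real.sqrt_pos.2 hL0
  have hll : 0 < Real.log L := Real.log_pos (by linarith)
  have k5 : Real.log L ≤ 2 * Real.log (len b N) := by
    have h2 := Real.log_le_log hsq1 k4
    rw [Real.log_sqrt hL0.le] at h2
    linarith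
  have hlk : 0 < Real.log (len b N) := by linarith
  have e1 : 4 / Real.log b * (L / Real.log L) = (4 * L) / (Real.log b * Real.log L) := by
    rw [div_mul_div_comm]
  rw [e1, div_le_div_iff₀ hlk (by positivity)]
  calc (len b N : ℝ) * (Real.log b * Real.log L) = (len b N * Real.log b) * Real.log L := by ring
    _ ≤ (2 * L) * (2 * Real.log (len b N)) := mul_le_mul k3 k5 hll.le (by linarith)
    _ = 4 * L * Real.log (len b N) := by ring

/-- For every base `b ≥ 2` there is a `c > 0`, and for every `ε > 0` there is a `C` such that for every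
sufficiently large integer `N` and every radius `r` with `C log N / log log N ≤ r ≤ c log N` the following
holds. Let for every position `i` a set `F i` of `m ≥ 1` digits different from the digit of `N` be given
(all such digits, for example). Then all but at most a proportion `ε` of the numbers which arise from `N`
by changing exactly `r` of the digits in base `b`, with the exception of the first and the last one, such
that the new digits belong to the sets `F i`, are odd or satisfy `Holds ε`: the number of primes `p` with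
`√n < p ≤ n / 2` such that `n - p` is prime satisfies the asymptotic formula predicted by Hardy and
Littlewood up to a relative error of at most `ε`, and there is such a prime. -/
theorem result (b : ℕ) (hb : 2 ≤ b) : ∃ c : ℝ, 0 < c ∧ ∀ ε : ℝ, 0 < ε → ∃ (C : ℝ) (N₀ : ℕ), 0 < C ∧
    ∀ N : ℕ, N₀ ≤ N → ∀ r : ℕ, C * (Real.log N / Real.log (Real.log N)) ≤ r → (r : ℝ) ≤ c * Real.log N →
    ∀ (m : ℕ) (F : ℕ → Finset ℕ), 1 ≤ m → (∀ i, F i ⊆ range b ∧ digit b i N ∉ F i ∧ (F i).card = m) →
      (exceptions ε b N F r : ℝ) ≤ ε * (sphere b N F r).card := by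
  classical
  obtain ⟨R, hR, H⟩ := Pool.Agent.TH894.SM.few_uniform b hb
  have hbr : (2 : ℝ) ≤ b := by exact_mod_cast hb
  have hRr : (1 : ℝ) ≤ R := by exact_mod_cast hR
  have hlb : 0 < Real.log b := Real.log_pos (by linarith)
  refine ⟨1 / (R * b), by positivity, fun ε hε => ?_⟩
  obtain ⟨η, n₀, hη, hgood⟩ := holds_of ε hε
  obtain ⟨C, k₀, hC, h1⟩ := H η ε hη hε
  obtain ⟨N₁, hconv⟩ := conv b hb
  refine ⟨4 * C / Real.log b, N₁ + b ^ k₀ + b * n₀ + 2, by positivity, fun N hN r hr hr' m F hm hF => ?_⟩
  obtain ⟨K, hK⟩ : ∃ K, K = len b N := ⟨_, rfl⟩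
  have hN0 : N ≠ 0 := by omega
  have hKk : k₀ ≤ K := by
    have : k₀ ≤ Nat.log b N := Nat.le_log_of_pow_le (by omega) (by omega)
    rw [hK]
    unfold len
    omega
  have hNl : b ^ (K - 1) ≤ N := by
    rw [hK]
    unfold len
    exact Nat.pow_log_le_self b hN0
  have hNu : N < b ^ K := by
    rw [hK]
    unfold len
    exact Nat.lt_pow_succ_log_self (by omega) N
  have hrl : C * K / Real.log K ≤ r := by
    have h2 := hconv N (by omega)
    rw [← hK] at h2
    calc C * K / Real.log K = C * (K / Real.log K) := by ring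
      _ ≤ C * (4 / Real.log b * (Real.log N / Real.log (Real.log N))) := mul_le_mul_of_nonneg_left h2 hC.le
      _ = 4 * C / Real.log b * (Real.log N / Real.log (Real.log N)) := by ring
      _ ≤ r := hr
  have hru : R * r ≤ K := by
    have h2 : Real.log N ≤ K * Real.log b := by
      have h3 : Real.log N ≤ Real.log ((b : ℝ) ^ K) := by
        apply Real.log_le_log (by exact_mod_cast Nat.pos_of_ne_zero hN0)
        exact_mod_cast hNu.le
      rwa [Real.log_pow] at h3
    have h3 : Real.log b ≤ b := (Real.log_le_sub_one_of_pos (by linarith)).trans (by linarith)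
    have h4 : (r : ℝ) * (R * b) ≤ Real.log N := by
      have h5 : (r : ℝ) * (R * b) ≤ (1 / (R * b) * Real.log N) * (R * b) :=
        mul_le_mul_of_nonneg_right hr' (by positivity)
      have h6 : (1 / (R * b) * Real.log N) * (R * b) = Real.log N := by
        field_simp
      linarith
    have h5 : (R * r : ℝ) * b ≤ K * b := by
      calc (R * r : ℝ) * b = r * (R * b) := by ring
        _ ≤ Real.log N := h4
        _ ≤ K * Real.log b := h2
        _ ≤ K * b := mul_le_mul_of_nonneg_left h3 (Nat.cast_nonneg _)
    have h6 := le_of_mul_le_mul_right h5 (by linarith)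
    exact_mod_cast h6
  have hsph : sphere b N F r = Pool.Agent.TH894.SM.Sph b K N (Ico 1 (K - 1)) F r := by
    unfold sphere Pool.Agent.TH894.SM.Sph
    rw [← hK]
    ext n
    simp only [mem_filter]
    rfl
  have hVsub : Ico 1 (K - 1) ⊆ range K := by
    intro i hi
    rw [mem_Ico] at hi
    rw [mem_range]
    omega
  have hNn : n₀ ≤ b ^ (K - 1) := by
    have h2 : b * n₀ < b * b ^ (K - 1) := by
      calc b * n₀ ≤ N := by omega
        _ < b ^ K := hNu
        _ = b * b ^ (K - 1) := by
          rw [← pow_succ']
          congr 1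
          rw [hK]
          unfold len
          omega
    exact (lt_of_mul_lt_mul_left h2 (Nat.zero_le _)).le
  have hbig : ∀ n ∈ Pool.Agent.TH894.SM.Sph b K N (Ico 1 (K - 1)) F r, n₀ ≤ n := by
    intro n hn
    rw [← hsph] at hn
    unfold sphere at hn
    rw [mem_filter, ← hK] at hn
    have hK1 : K - 1 ∈ range K := by
      rw [mem_range, hK]
      unfold len
      omega
    have h2 : digit b (K - 1) n = digit b (K - 1) N := by
      by_contra hcon
      have := (hn.2.1 (K - 1) hK1 hcon).1
      rw [mem_Ico] at this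
      omega
    have hKK : b ^ K = b * b ^ (K - 1) := by
      rw [← pow_succ']
      congr 1
      rw [mem_range] at hK1
      omega
    have hpos : 0 < b ^ (K - 1) := by positivity
    have h3 : N / b ^ (K - 1) < b := by
      rw [Nat.div_lt_iff_lt_mul hpos, ← hKK]
      exact hNu
    have h4 : 1 ≤ N / b ^ (K - 1) := by
      rw [Nat.one_le_div_iff hpos]
      exact hNl
    have h5 : 1 ≤ n / b ^ (K - 1) := by
      unfold digit at h2
      rw [Nat.mod_eq_of_lt h3] at h2
      have : n / b ^ (K - 1) % b ≤ n / b ^ (K - 1) := Nat.mod_le _ _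
      omega
    rw [Nat.one_le_div_iff hpos] at h5
    exact hNn.trans h5
  unfold exceptions
  rw [hsph]
  refine Pool.Agent.TH894.SM.sphere_avg b K N hb hNu (Ico 1 (K - 1)) hVsub F m hm hF r ε _ (filter_subset _ _) ?_
  intro f hf
  refine (h1 K hKk N hNl hNu f hf r hrl hru _ (filter_subset _ _) ?_).trans (le_of_eq ?_)
  · intro T hT
    rw [mem_filter, mem_filter] at hT
    refine ⟨hT.2.2.1.two_dvd, fun h6 => hT.2.2.2 (hgood _ ?_ hT.2.2.1 h6)⟩
    exact hbig _ hT.2.1
  · rw [card_powersetCard, Nat.card_Ico]
    congr 3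

end Pool.Agent.Results.MP_73b532_nt.HammingSpheres
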