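import Pool.Agent.TH345.GBM.D

/-!
# Primes `p` with `√(2n) < p ≤ n` and `2n - p` prime, in progressions, for all the even numbers `2n` close
to almost all members of arbitrary thin families

Definition used from `Pool.Agent.H560R3.GB`: `sing n`: the singular series
`2 C₂ ∏_{p ∣ n, p > 2} (p - 1) / (p - 2)`, where `C₂ = ∏_{p > 2} (1 - 1 / (p - 1) ^ 2)` is the twin prime
constant.
-/

set_option autoImplicit false

namespace Pool.Agent.Results.MP_73b532_nt.ThinFamilies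

open Finset Pool.Agent.H560R3.GB

/-- The number of primes `p ≡ r (mod k)` with `√(2n) < p ≤ n` for which `2n - p` is a prime. -/
noncomputable def count (n k r : ℕ) : ℕ :=
  Nat.card {p : ℕ // p.Prime ∧ (2 * n - p).Prime ∧ √(2 * n : ℝ) < p ∧ p ≤ n ∧ p ≡ r [MOD k]}

/-- The number of classes `α` modulo `k` for which `α` and `m - α` are both prime to `k`. -/
noncomputable def classes (k m : ℕ) : ℕ :=
  Nat.card {α : ℕ // α < k ∧ Nat.Coprime α k ∧ IsCoprime ((m : ℤ) - α) (k : ℤ)}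

/-- The predicted number. -/
noncomputable def pred (n k : ℕ) : ℝ :=
  sing (2 * n) * n / (classes k (2 * n) * Real.log (2 * n) ^ 2)

/-- For all moduli `1 ≤ k ≤ log ^ B N` and all classes `r` with `(r, k) = (2n - r, k) = 1` the number of
primes `p ≡ r (mod k)` with `√(2n) < p ≤ n` and `2n - p` prime agrees with the predicted number up to a
relative error of at most `ε`. -/
def Holds (ε : ℝ) (B N n : ℕ) : Prop :=
  ∀ k r : ℕ, 1 ≤ k → (k : ℝ) ≤ Real.log N ^ B → Nat.Coprime r k →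
    IsCoprime (((2 * n : ℕ) : ℤ) - r) (k : ℤ) → |(count n k r : ℝ) - pred n k| ≤ ε * pred n k

/-- The additive energy of order `h` of a finite family of integers `v i`: the number of solutions of
`v (a 1) + ... + v (a h) = v (b 1) + ... + v (b h)`. -/
noncomputable def energy (h : ℕ) {ι : Type} [Fintype ι] (v : ι → ℤ) : ℕ :=
  Nat.card {q : (Fin h → ι) × (Fin h → ι) // ∑ j, v (q.1 j) = ∑ j, v (q.2 j)}

/-- The number of representations of `t` as `v (a 1) + ... + v (a h)`. -/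
noncomputable def reps (h : ℕ) {ι : Type} [Fintype ι] (v : ι → ℤ) (t : ℤ) : ℕ :=
  Nat.card {a : Fin h → ι // ∑ j, v (a j) = t}

open Classical in
/-- The number of the members `v i` of the family for which there is a natural number `n` with
`2n ≥ N / log ^ A N` and `|2n - v i| ≤ log ^ A N` for which `Holds` fails. -/
noncomputable def exceptions (ε : ℝ) (A B N : ℕ) {ι : Type} [Fintype ι] (v : ι → ℤ) : ℕ :=
  (univ.filter (fun i => ∃ n : ℕ, (N : ℝ) / Real.log N ^ A ≤ 2 * n ∧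
    (|((2 * n : ℕ) : ℤ) - v i| : ℤ) ≤ Real.log N ^ A ∧ ¬ Holds ε B N n)).card

lemma count_eq (n k r : ℕ) : count n k r = Pool.Agent.TH935.DG.cg k r (2 * n) (Nat.sqrt (2 * n)) n := by
  classical
  unfold count Pool.Agent.TH935.DG.cg
  rw [← Fintype.card_coe, ← Nat.card_eq_fintype_card]
  apply Nat.card_congr
  apply Equiv.subtypeEquivRight
  intro p
  rw [mem_filter, mem_Ioc]
  have e : √(2 * n : ℝ) < p ↔ Nat.sqrt (2 * n) < p := by
    rcases Nat.eq_zero_or_pos p with hp | hp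
    · subst hp
      simp only [Nat.cast_zero, not_lt_zero, iff_false, not_lt]
      exact Real.sqrt_nonneg _
    · rw [Nat.sqrt_lt', Real.sqrt_lt' (by exact_mod_cast hp)]
      exact_mod_cast Iff.rfl
  rw [e]
  tauto

lemma holds_of (A B W : ℕ) (ε : ℝ) (hε : 0 < ε) : ∃ N₀ : ℕ, ∀ N : ℕ, N₀ ≤ N → ∀ n : ℕ,
    (N : ℝ) / Real.log N ^ A ≤ 2 * n → 2 * n ≤ W * N →
    Pool.Agent.TH935.DG.HG (min ε 1 / 4) (A + 1) B N (2 * n) → Holds ε B N n := by
  obtain ⟨ε', hε'⟩ : ∃ ε', ε' = min ε 1 := ⟨_, rfl⟩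
  have hε0 : 0 < ε' := by rw [hε']; exact lt_min hε one_pos
  have hε1 : ε' ≤ 1 := by rw [hε']; exact min_le_right _ _
  have hεε : ε' ≤ ε := by rw [hε']; exact min_le_left _ _
  obtain ⟨N₁, h1⟩ := Pool.Agent.TH345.GBM.logs A W (ε' / 16) (by positivity)
  obtain ⟨N₂, h2⟩ := Pool.Agent.H373R2.T7.ev_L' (2 * 16 / ε' + 8)
  obtain ⟨N₃, h3⟩ := Pool.Agent.H373R2.T7.ev_log' (A + 2) 1
  refine ⟨N₁ + N₂ + N₃ + 1, fun N hN n hn1 hn2 hG => ?_⟩
  rw [← hε'] at hG
  have c1 := h1 N (by omega) (2 * n) (by push_cast; exact hn1) hn2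
  have c2 := h2 N (by omega)
  have c3 := h3 N (by omega)
  obtain ⟨L, hLd⟩ : ∃ L, L = Real.log (N : ℝ) := ⟨_, rfl⟩
  rw [← hLd] at c1 c2 c3 hn1
  rw [one_mul] at c3
  have hp : 0 < 2 * 16 / ε' := by positivity
  have hL8 : 8 ≤ L := by linarith
  have hL0 : 0 < L := by linarith
  have hL1 : 1 ≤ L := by linarith
  have hLε : 32 ≤ L * ε' := by
    have : 2 * 16 / ε' ≤ L := by linarith
    rw [div_le_iff₀ hε0] at this
    linarith
  have hNr : (1 : ℝ) ≤ N := by exact_mod_cast (by omega : 1 ≤ N)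
  have hN0 : (0 : ℝ) < N := by linarith
  have hLA : 0 < L ^ A := by positivity
  have hLA1 : 1 ≤ L ^ A := one_le_pow₀ hL1
  have hss : √(N : ℝ) * √(N : ℝ) = N := Real.mul_self_sqrt hN0.le
  -- `n` is large: `2 n ≥ N / L ^ A ≥ L ^ (A + 4)`
  have hn3 : L ^ (A + 4) ≤ 2 * n := by
    refine le_trans ?_ hn1
    rw [le_div_iff₀ hLA, ← hss, ← pow_add, show A + 4 + A = (A + 2) + (A + 2) by ring, pow_add]
    exact mul_le_mul c3 c3 (by positivity) (by positivity)
  have hn4 : L ^ 2 * 8 ≤ n := by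
    have h5 : L ^ 2 * 16 ≤ L ^ (A + 4) := by
      rw [show A + 4 = A + 2 + 2 by ring, pow_add, pow_add]
      have h6 : (16 : ℝ) ≤ L ^ 2 := by nlinarith
      calc L ^ 2 * 16 ≤ L ^ 2 * L ^ 2 := mul_le_mul_of_nonneg_left h6 (by positivity)
        _ ≤ L ^ A * L ^ 2 * L ^ 2 := by
            apply mul_le_mul_of_nonneg_right _ (by positivity)
            exact le_mul_of_one_le_left (by positivity) hLA1
    linarith
  have hn0 : (0 : ℝ) < n := lt_of_lt_of_le (by positivity) hn4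
  have hnn : 0 < n := by exact_mod_cast hn0
  -- the square root
  have hs1 : (Nat.sqrt (2 * n) : ℝ) ≤ √(2 * n : ℝ) := by
    have := Nat.sqrt_le' (2 * n)
    apply Real.le_sqrt_of_sq_le
    exact_mod_cast this
  have hs2 : √(2 * n : ℝ) ≤ ε' / 16 * n := by
    rw [Real.sqrt_le_left (by positivity)]
    have h7 : 2 ≤ (ε' / 16) ^ 2 * n := by
      have h8 : (2 : ℝ) ≤ (ε' / 16) * L := by linarith
      calc (2 : ℝ) ≤ 2 * 2 * 8 := by norm_num
        _ ≤ ((ε' / 16) * L) * ((ε' / 16) * L) * 8 := by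
            apply mul_le_mul_of_nonneg_right _ (by norm_num)
            exact mul_le_mul h8 h8 (by norm_num) (by positivity)
        _ = (ε' / 16) ^ 2 * (L ^ 2 * 8) := by ring
        _ ≤ (ε' / 16) ^ 2 * n := mul_le_mul_of_nonneg_left hn4 (by positivity)
    nlinarith
  have hs3 : (Nat.sqrt (2 * n) : ℝ) ≤ ε' / 16 * n := hs1.trans hs2
  have hs4 : (Nat.sqrt (2 * n) : ℝ) ≤ n / 16 := by
    refine hs3.trans ?_
    nlinarith
  intro k r hk hkL hr hrn
  have h4 := hG k r hk hkL hr hrn (Nat.sqrt (2 * n)) n (by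
    have : (Nat.sqrt (2 * n) : ℝ) < n := by linarith
    exact_mod_cast this) (by omega) (by
    rw [← hLd, pow_succ]
    rw [div_le_iff₀ (by positivity)]
    rw [div_le_iff₀ hLA] at hn1
    have h9 : (n : ℝ) / 2 ≤ n - Nat.sqrt (2 * n) := by linarith
    have h10 : (N : ℝ) ≤ (n / 2) * (L ^ A * L) := by
      have h11 : (0 : ℝ) ≤ n * L ^ A := by positivity
      nlinarith
    exact h10.trans (mul_le_mul_of_nonneg_right h9 (by positivity)))
  rw [← count_eq, ← hLd] at h4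
  unfold pred
  have hKe : classes k (2 * n) = Pool.Agent.W93.PP.Cnt k (2 * n) := Pool.Agent.TH345.GBM.cnt_eq k (2 * n) hk
  rw [← hKe] at h4
  obtain ⟨K, hK⟩ : ∃ K : ℝ, K = classes k (2 * n) := ⟨_, rfl⟩
  rw [← hK] at h4 ⊢
  have hK0 : 0 < K := by
    rw [hK, hKe]
    exact_mod_cast Pool.Agent.TH935.DG.cnt_pos' k r (2 * n) hk hr hrn
  obtain ⟨ℓ, hℓ⟩ : ∃ ℓ, ℓ = Real.log (2 * n : ℝ) := ⟨_, rfl⟩
  push_cast at c1
  rw [← hℓ] at c1 ⊢
  have hℓ0 : 0 < ℓ := by
    refine lt_of_lt_of_le ?_ c1.1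
    have : 0 < 1 - ε' / 16 := by linarith
    positivity
  have hs : 1 ≤ sing (2 * n) := Pool.Agent.W93.GB.one_le_sing _
  have hQ0 : 0 ≤ sing (2 * n) * n / (K * ℓ ^ 2) := by positivity
  have key := Pool.Agent.TH345.GBM.cmp ε' (count n k r) (sing (2 * n) * ((n : ℝ) - Nat.sqrt (2 * n)) / (K * L ^ 2))
    (sing (2 * n) * n / (K * ℓ ^ 2)) (((n : ℝ) - Nat.sqrt (2 * n)) / n) (ℓ / L) hε0 hε1 hQ0 h4 (by
      field_simp) (by
      rw [le_div_iff₀ hn0]
      nlinarith) (by
      rw [div_le_one hn0]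
      have : (0 : ℝ) ≤ Nat.sqrt (2 * n) := Nat.cast_nonneg _
      linarith) (by
      rw [le_div_iff₀ hL0]
      exact c1.1) (by
      rw [div_le_iff₀ hL0]
      exact c1.2)
  refine key.trans ?_
  apply mul_le_mul_of_nonneg_right _ hQ0
  linarith

theorem first (h A B C U W : ℕ) (ε : ℝ) (hε : 0 < ε) :
    ∃ N₀ : ℕ, ∀ N : ℕ, N₀ ≤ N → ∀ (ι : Type) [Fintype ι] (v : ι → ℤ),
      (∀ i, |v i| ≤ W * N) →
      (energy h v : ℝ) * N ≤ Real.log N ^ C * (Fintype.card ι : ℝ) ^ (2 * h) →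
      (exceptions ε A B N v : ℝ) ≤ Fintype.card ι / Real.log N ^ U := by
  classical
  obtain ⟨N₀, h0⟩ := Pool.Agent.TH345.GBM.close h (A + 1) B A C W U (min ε 1 / 4) (by
    have := lt_min hε one_pos
    positivity)
  obtain ⟨N₁, h1⟩ := holds_of A B (W + 1) ε hε
  obtain ⟨N₂, h2⟩ := Pool.Agent.H373R2.T7.ev_L' 3
  obtain ⟨N₃, h3⟩ := Pool.Agent.H373R2.T7.ev_log' A 1
  refine ⟨N₀ + N₁ + N₂ + N₃ + 1, fun N hN ι _ v hv hE => ?_⟩
  have c2 := h2 N (by omega)
  have c3 := h3 N (by omega)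
  rw [one_mul] at c3
  have hNr : (1 : ℝ) ≤ N := by exact_mod_cast (by omega : 1 ≤ N)
  have hLN : Real.log N ^ A ≤ N := by
    refine c3.trans ?_
    rw [Real.sqrt_le_left (by linarith)]
    nlinarith
  unfold exceptions
  apply h0 N (by omega) ι v hv hE
  intro i hi
  rw [mem_filter] at hi
  obtain ⟨_, n, hn1, hn2, hn3⟩ := hi
  refine ⟨2 * n, ?_, even_two_mul n, hn2, fun hG => hn3 (h1 N (by omega) n hn1 ?_ hG)⟩
  · have : (0 : ℝ) < 2 * n := by
      refine lt_of_lt_of_le ?_ hn1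
      have : (0 : ℝ) < N := by linarith
      have : 0 < Real.log (N : ℝ) := by linarith
      positivity
    exact_mod_cast this
  · have h5 := hv i
    have h6 : ((|((2 * n : ℕ) : ℤ) - v i| : ℤ) : ℝ) ≤ N := hn2.trans hLN
    have h7 : |((2 * n : ℕ) : ℤ) - v i| ≤ N := by exact_mod_cast h6
    rw [abs_le] at h5 h7
    have h8 : ((2 * n : ℕ) : ℤ) ≤ ((W + 1) * N : ℕ) := by
      push_cast
      push_cast at h7
      linarith [h5.2, h7.2]
    exact_mod_cast h8

/-- Let `h`, `A`, `B`, `C`, `U`, `W` and `ε > 0` be fixed, and let `N` be large. Let `v i`, `i ∈ ι`, be an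
arbitrary finite family of integers with `|v i| ≤ W N`.

* Suppose that the additive energy of order `h` of the family is at most `log ^ C N` times
  `(#ι) ^ (2 h) / N` (up to the power of the logarithm this is the least possible energy of a family with
  members in `[-N, N]`, and the family may have as few as `N ^ (1 / h)` members). Then for all members `v i`
  of the family, with at most `#ι / log ^ U N` exceptions, all the even numbers `2n ≥ N / log ^ A N` with
  `|2n - v i| ≤ log ^ A N` have the following property: for every modulus `k ≤ log ^ B N` and every class `r`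
  with `(r, k) = (2n - r, k) = 1`, the number of the primes `p ≡ r (mod k)` with `√(2n) < p ≤ n` and
  `2n - p` prime is as predicted up to a relative error of at most `ε`.
* In particular this holds if no integer has more than `log ^ C N` representations as a sum of `h` members
  of the family, and `(#ι) ^ h ≥ N / log ^ C N`. -/
theorem result (h A B C U W : ℕ) (ε : ℝ) (hε : 0 < ε) :
    (∃ N₀ : ℕ, ∀ N : ℕ, N₀ ≤ N → ∀ (ι : Type) [Fintype ι] (v : ι → ℤ),
      (∀ i, |v i| ≤ W * N) →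
      (energy h v : ℝ) * N ≤ Real.log N ^ C * (Fintype.card ι : ℝ) ^ (2 * h) →
      (exceptions ε A B N v : ℝ) ≤ Fintype.card ι / Real.log N ^ U) ∧
    (∃ N₀ : ℕ, ∀ N : ℕ, N₀ ≤ N → ∀ (ι : Type) [Fintype ι] (v : ι → ℤ),
      (∀ i, |v i| ≤ W * N) →
      (∀ t, (reps h v t : ℝ) ≤ Real.log N ^ C) →
      (N : ℝ) ≤ Real.log N ^ C * (Fintype.card ι : ℝ) ^ h →
      (exceptions ε A B N v : ℝ) ≤ Fintype.card ι / Real.log N ^ U) := by
  refine ⟨first h A B C U W ε hε, ?_⟩
  obtain ⟨N₀, h0⟩ := first h A B (2 * C) U W ε hε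
  obtain ⟨N₁, h1⟩ := Pool.Agent.H373R2.T7.ev_L' 1
  refine ⟨N₀ + N₁, fun N hN ι _ v hv hJ hx => ?_⟩
  apply h0 N (by omega) ι v hv
  have hL := h1 N (by omega)
  have hL0 : 0 ≤ Real.log N := by linarith
  have h2 : (energy h v : ℝ) ≤ (Fintype.card ι : ℝ) ^ h * Real.log N ^ C :=
    Pool.Agent.TH935.GF.En_le h v _ hJ
  calc (energy h v : ℝ) * N ≤ ((Fintype.card ι : ℝ) ^ h * Real.log N ^ C) * (Real.log N ^ C * (Fintype.card ι : ℝ) ^ h) :=
        mul_le_mul h2 hx (Nat.cast_nonneg _) (by positivity)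
    _ = Real.log N ^ (2 * C) * (Fintype.card ι : ℝ) ^ (2 * h) := by ring

end Pool.Agent.Results.MP_73b532_nt.ThinFamilies
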